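import Pool.Agent.N356.SP.DefsK

/-! # Project LK, part GK5a (helper123): words and multiplicities -/

set_option autoImplicit false
set_option linter.unusedSectionVars false
set_option linter.unusedSimpArgs false
set_option linter.unusedVariables false

namespace Pool.Agent.N123.LK

open Finset Pool.Agent.H384R3.SPk Pool.Agent.N356.SP

variable {Γ : Type*} [AddCommGroup Γ]

/-- a sum over positions is a sum over values -/
theorem sum_val {C : Finset Γ} {n : ℕ} (x : Fin n → Γ) (hx : ∀ i, x i ∈ C) (F : Γ → ℝ) :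
    ∑ i, F (x i) = ∑ v ∈ C, mult x v * F v := by
  classical
  rw [← Finset.sum_fiberwise_of_maps_to (s := univ) (t := C) (g := x) (fun i _ => hx i)]
  refine Finset.sum_congr rfl fun v _ => ?_
  rw [Finset.sum_congr rfl (g := fun _ => F v) (fun i hi => by
    rw [(Finset.mem_filter.1 hi).2])]
  rw [Finset.sum_const, nsmul_eq_mul, mult]

open Classical in
theorem row_sum {n : ℕ} (x : Fin n → Γ) (v : Γ) :
    (∑ j, if v = -x j then (1 : ℝ) else 0) = mult x (-v) := by
  rw [Finset.sum_boole, mult]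
  congr 2
  ext j
  rw [Finset.mem_filter, Finset.mem_filter]
  refine and_congr Iff.rfl ?_
  constructor
  · intro h; rw [h, neg_neg]
  · intro h; rw [h, neg_neg]

open Classical in
theorem col_sum {n : ℕ} (x : Fin n → Γ) (v : Γ) :
    (∑ i, if x i = -v then (1 : ℝ) else 0) = mult x (-v) := by
  rw [Finset.sum_boole, mult]

theorem wS_eq {C : Finset Γ} (hne : ∀ s ∈ C, s ≠ -s) {n : ℕ} (x : Fin n → Γ)
    (hx : ∀ i, x i ∈ C) : wS x = mS C (mult x) := by
  classical
  rw [wS, mS, ← sum_val x hx (fun v => mult x (-v))]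
  refine Finset.sum_congr rfl fun i _ => ?_
  rw [← row_sum x (x i)]

theorem del_sum {n : ℕ} (i j : Fin n) (F : Fin n → ℝ) :
    ∑ k, (1 - (if k = i then (1 : ℝ) else 0) - (if k = j then 1 else 0)) * F k =
      ∑ k, F k - F i - F j := by
  simp only [sub_mul, one_mul, Finset.sum_sub_distrib, ite_mul, zero_mul, Finset.sum_ite_eq',
    Finset.mem_univ, if_true]

theorem wS4_eq {C : Finset Γ} (hneg : ∀ s ∈ C, -s ∈ C) (hne : ∀ s ∈ C, s ≠ -s) {n : ℕ}
    (x : Fin n → Γ) (hx : ∀ i, x i ∈ C) : wS4 x = mS4 C (mult x) := by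
  classical
  obtain ⟨P, hP⟩ : ∃ P : Fin n → Fin n → ℝ, P = fun i j => if x i = -x j then 1 else 0 :=
    ⟨_, rfl⟩
  have hP1 : ∀ i j, x i = -x j → P i j = 1 := by
    intro i j h
    rw [hP]
    exact if_pos h
  have hP0 : ∀ i j, x i ≠ -x j → P i j = 0 := by
    intro i j h
    rw [hP]
    exact if_neg h
  have hneij : ∀ i j, x i = -x j → i ≠ j := by
    rintro i _ h rfl
    exact hne _ (hx i) h
  -- the four-fold sum
  have h1 : ∀ i j k l, (if (i ≠ j ∧ i ≠ k ∧ i ≠ l ∧ j ≠ k ∧ j ≠ l ∧ k ≠ l) ∧ x i = -x j ∧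
      x k = -x l then (1 : ℝ) else 0) =
      P i j * ((1 - (if k = i then (1 : ℝ) else 0) - (if k = j then 1 else 0)) *
        ((1 - (if l = i then (1 : ℝ) else 0) - (if l = j then 1 else 0)) * P k l)) := by
    intro i j k l
    by_cases hij : x i = -x j
    · by_cases hkl : x k = -x l
      · rw [hP1 i j hij, hP1 k l hkl]
        have hij' := hneij i j hij
        have hkl' := hneij k l hkl
        by_cases hki : k = i
        · subst hki
          simp [hij']
        · by_cases hkj : k = j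
          · subst hkj
            simp [hij', hij'.symm]
          · by_cases hli : l = i
            · subst hli
              simp [hij', hkl', hkj]
            · by_cases hlj : l = j
              · subst hlj
                simp [hij', hij'.symm, hkl', hki]
              · simp [hij', hkl', hki, hkj, hli, hlj, hij, hkl, Ne.symm hki, Ne.symm hkj,
                  Ne.symm hli, Ne.symm hlj]
      · rw [hP0 k l hkl, if_neg (fun h => hkl h.2.2)]
        ring
    · rw [hP0 i j hij, if_neg (fun h => hij h.2.1)]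
      ring
  have hrow : ∀ k, ∑ l, P k l = mult x (-x k) := by
    intro k
    rw [hP]
    exact row_sum x (x k)
  have hcol : ∀ l, ∑ k, P k l = mult x (-x l) := by
    intro l
    rw [hP]
    exact col_sum x (x l)
  have htot : ∑ k, mult x (-x k) = wS x := by
    rw [wS]
    refine Finset.sum_congr rfl fun k _ => ?_
    rw [← hrow k, hP]
  have hPself : ∀ i, P i i = 0 := fun i => hP0 i i (hne _ (hx i))
  have h2 : ∀ i j, (∑ k, ∑ l, (if (i ≠ j ∧ i ≠ k ∧ i ≠ l ∧ j ≠ k ∧ j ≠ l ∧ k ≠ l) ∧ x i = -x j ∧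
      x k = -x l then (1 : ℝ) else 0)) =
      P i j * (wS x - 2 * (mult x (x i) + mult x (-x i) - 1)) := by
    intro i j
    simp only [h1, ← Finset.mul_sum, del_sum]
    simp only [Finset.sum_sub_distrib, hrow, hcol, hPself, htot]
    by_cases hij : x i = -x j
    · have hji : x j = -x i := by rw [hij, neg_neg]
      rw [hP1 i j hij, hP1 j i hji, hji, neg_neg]
      ring
    · rw [hP0 i j hij, zero_mul, zero_mul]
  have h3 : wS4 x = ∑ i, mult x (-x i) * (wS x - 2 * (mult x (x i) + mult x (-x i) - 1)) := by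
    rw [wS4]
    refine Finset.sum_congr rfl fun i _ => ?_
    rw [← hrow i, Finset.sum_mul]
    refine Finset.sum_congr rfl fun j _ => ?_
    rw [hrow i, ← h2 i j]
  rw [h3, sum_val x hx (fun v => mult x (-v) * (wS x - 2 * (mult x v + mult x (-v) - 1))), mS4,
    ← wS_eq hne x hx, pow_two]
  conv_rhs => rw [wS_eq hne x hx]
  conv_rhs => rw [mS, Finset.sum_mul, Finset.mul_sum, ← Finset.sum_sub_distrib]
  refine Finset.sum_congr rfl fun v _ => ?_
  rw [wS_eq hne x hx, mS]
  ring

theorem wV4_le {C : Finset Γ} {θ : Γ → Γ → ℝ} (hθ : ∀ s t, 0 ≤ θ s t) {n : ℕ}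
    (x : Fin n → Γ) (hx : ∀ i, x i ∈ C) : wV4 θ x ≤ mV C θ (mult x) := by
  classical
  obtain ⟨F, hF⟩ : ∃ F : Γ → Γ → Γ → Γ → ℝ, F = fun s t u v =>
    if s + t + u + v = 0 then θ s t * θ u v else 0 := ⟨_, rfl⟩
  have hF0 : ∀ s t u v, 0 ≤ F s t u v := by
    intro s t u v
    rw [hF]
    show 0 ≤ if s + t + u + v = 0 then θ s t * θ u v else 0
    split_ifs
    · exact mul_nonneg (hθ _ _) (hθ _ _)
    · exact le_refl _
  have h1 : wV4 θ x ≤ ∑ i, ∑ j, ∑ k, ∑ l, F (x i) (x j) (x k) (x l) := by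
    rw [wV4]
    refine Finset.sum_le_sum fun i _ => Finset.sum_le_sum fun j _ =>
      Finset.sum_le_sum fun k _ => Finset.sum_le_sum fun l _ => ?_
    split_ifs with h
    · rw [hF]
      show _ ≤ if x i + x j + x k + x l = 0 then _ else _
      rw [if_pos h.2]
    · exact hF0 _ _ _ _
  refine h1.trans (le_of_eq ?_)
  rw [sum_val x hx (fun s => ∑ j, ∑ k, ∑ l, F s (x j) (x k) (x l)), mV]
  refine Finset.sum_congr rfl fun s _ => ?_
  rw [sum_val x hx (fun t => ∑ k, ∑ l, F s t (x k) (x l)), Finset.mul_sum]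
  refine Finset.sum_congr rfl fun t _ => ?_
  rw [sum_val x hx (fun u => ∑ l, F s t u (x l)), Finset.mul_sum, Finset.mul_sum]
  refine Finset.sum_congr rfl fun u _ => ?_
  rw [sum_val x hx (fun v => F s t u v), Finset.mul_sum, Finset.mul_sum, Finset.mul_sum]
  refine Finset.sum_congr rfl fun v _ => ?_
  rw [hF]
  show mult x s * (mult x t * (mult x u * (mult x v *
    if s + t + u + v = 0 then θ s t * θ u v else 0))) = _
  split_ifs
  · ring
  · ring

end Pool.Agent.N123.LK
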